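import Pool.Agent.TH358.GP.Cls

/-!
# Acyclicity of Goncharov's complexes from the vanishing of `H^1`
-/

set_option autoImplicit false

namespace Pool.Agent.J4.H22.GA

open scoped TensorProduct
open Polynomial H39Gon H39Gon.C4 H39Gon.TC2 H39Gon.E2 Pool.Agent.TH358.GP

/-- Every functional on `B_{m+2}(F)` with values in a `ℚ`-vector space is of the form `ev Ψ`. -/
def EvW (F : Type) [Field F] (m : ℕ) : Prop :=
  ∀ (W : Type) [AddCommGroup W] [Module ℚ W] (θ : ZP F →ₗ[ℤ] W),
    (∀ r ∈ R (m + 2) F, θ r = 0) →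
    ∃ Ψ : UV F →ₗ[ℤ] UV F →ₗ[ℤ] MultilinearMap ℤ (fun _ : Fin m => UV F) W,
      (∀ a, Ψ a a = 0) ∧ θ = ev Ψ

section Main

variable {F : Type} [Field F] (hsd : ∀ m, SpanDual F m) (D : Differentials F)

include hsd in
theorem step_d (m j : ℕ) (hev : EvW F (m + 1)) (φ : TQ F (m + 3) j →ₗ[ℚ] ℚ)
    (hφ : ∀ (i : ℕ) (hi : j = i + 1) (x : F) (y : Fin i → UV F), x ≠ 0 →
      φ (tq F (m + 3) j (some x)
        ((Fin.cons (cl x) y : Fin (i + 1) → UV F) ∘ Fin.cast hi)) = 0) :
    ∃ ψ : TQ F (m + 2) (j + 1) →ₗ[ℚ] ℚ, ∀ v, φ v = ψ (D.d m j v) := by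
  obtain ⟨Ψ, hΨ, hev⟩ := hev _ (toTheta φ) (fun r hr => toTheta_R φ r hr)
  have hnone : ∀ y, φ (tq F (m + 3) j none y) = 0 := by
    intro y
    rw [← toTheta_apply, hev, ev_none]
    rfl
  have hsome : ∀ x y, φ (tq F (m + 3) j (some x) y) =
      Ψ (cl (1 - x)) (cl x) (fun _ => cl x) y := by
    intro x y
    rw [← toTheta_apply, hev, ev_some]
  obtain ⟨Q', hQ1, hQ2⟩ := koszul_step m j (qOf Ψ) (by
      intro s
      rw [qOf_apply, hΨ]
      rfl) (by
      intro i hi s v y
      subst hi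
      have h1 := hsd (m + 2) (MultilinearMap.uncurryRight
        (M := fun _ : Fin (m + 2 + 1) => UV F)
        ((flipTail y).compMultilinearMap (qOf Ψ))) (by
          intro f hf0 hf1
          change qOf Ψ (fun _ => cl f) (cl (1 - f)) (Fin.cons (cl f) y) = 0
          rw [qOf_apply, ← hsome]
          exact hφ i rfl f y hf0) s v
      exact h1)
  refine ⟨ofTheta (theta' Q') (theta'_R Q' hQ1), fun v => ?_⟩
  have h2 : φ = (ofTheta (theta' Q') (theta'_R Q' hQ1)) ∘ₗ (D.d m j) := by
    apply text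
    intro x y
    rw [LinearMap.comp_apply]
    rcases x with _ | x
    · rw [hnone, D.d_inf, map_zero]
    · by_cases hx : x = 0
      · subst hx
        rw [D.d_zero, map_zero, hsome, H39Gon.E2.cl_zero, map_zero]
        rfl
      · rw [D.d_some m j x y hx, ofTheta_apply, theta'_some, hQ2, qOf_apply, hsome]
  rw [h2]
  rfl

include hsd in
theorem step_e (j : ℕ) (hev : EvW F 0) (φ : TQ F 2 j →ₗ[ℚ] ℚ)
    (hφ : ∀ (i : ℕ) (hi : j = i + 1) (x : F) (y : Fin i → UV F), x ≠ 0 →
      φ (tq F 2 j (some x)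
        ((Fin.cons (cl x) y : Fin (i + 1) → UV F) ∘ Fin.cast hi)) = 0) :
    ∃ ψ : LQ F (j + 2) →ₗ[ℚ] ℚ, ∀ v, φ v = ψ (D.e j v) := by
  obtain ⟨Ψ, hΨ, hev⟩ := hev _ (toTheta φ) (fun r hr => toTheta_R φ r hr)
  have hnone : ∀ y, φ (tq F 2 j none y) = 0 := by
    intro y
    rw [← toTheta_apply, hev, ev_none]
    rfl
  have hsome : ∀ x y, φ (tq F 2 j (some x) y) =
      Ψ (cl (1 - x)) (cl x) (fun _ => cl x) y := by
    intro x y
    rw [← toTheta_apply, hev, ev_some]
  let Q : UV F →ₗ[ℤ] (UV F →ₗ[ℤ] (UV F [⋀^Fin j]→ₗ[ℤ] ℚ)) :=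
    LinearMap.mk₂ ℤ (fun s v => Ψ v s Fin.elim0)
      (fun a b c => by simp) (fun a b c => by simp) (fun a b c => by simp)
      (fun a b c => by simp)
  have hQ : ∀ s v, Q s v = Ψ v s (fun _ => s) := by
    intro s v
    change Ψ v s Fin.elim0 = _
    congr 1
    exact Subsingleton.elim _ _
  obtain ⟨Θ, hΘ⟩ := koszul_last j Q (by
      intro s
      rw [hQ, hΨ]
      rfl) (by
      intro i hi s v y
      subst hi
      have h1 := hsd 1 (MultilinearMap.uncurryRight
        (M := fun _ : Fin (1 + 1) => UV F)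
        ((flipTail y).compMultilinearMap (qOf Ψ))) (by
          intro f hf0 hf1
          change qOf Ψ (fun _ => cl f) (cl (1 - f)) (Fin.cons (cl f) y) = 0
          rw [qOf_apply, ← hsome]
          exact hφ i rfl f y hf0) s v
      have h2 : qOf Ψ (fun _ => s) v (Fin.cons s y) = 0 := h1
      rw [qOf_apply] at h2
      rw [hQ]
      exact h2)
  refine ⟨ofAlt Θ, fun v => ?_⟩
  have h2 : φ = (ofAlt Θ) ∘ₗ (D.e j) := by
    apply text
    intro x y
    rw [LinearMap.comp_apply]
    rcases x with _ | x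
    · rw [hnone, D.e_inf, map_zero]
    · by_cases hx : x = 0
      · subst hx
        rw [D.e_zero, map_zero, hsome, H39Gon.E2.cl_zero, map_zero]
        rfl
      · by_cases hx1 : x = 1
        · subst hx1
          rw [D.e_one, map_zero, hsome, sub_self, H39Gon.E2.cl_zero, map_zero]
          rfl
        · rw [D.e_some j x y hx hx1, ofAlt_apply, hΘ, hQ, hsome]
  rw [h2]
  rfl

include hsd in
theorem exact_d (m j : ℕ) (hev : EvW F (m + 1)) : Function.Exact (D.d (m + 1) j) (D.d m (j + 1)) := by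
  apply exact_of_dual
  · have h0 : (D.d m (j + 1)) ∘ₗ (D.d (m + 1) j) = 0 := by
      apply text
      intro x y
      rw [LinearMap.comp_apply, LinearMap.zero_apply]
      rcases x with _ | x
      · rw [D.d_inf, map_zero]
      · by_cases hx : x = 0
        · subst hx
          rw [D.d_zero, map_zero]
        · rw [D.d_some _ _ _ _ hx, D.d_some _ _ _ _ hx]
          unfold tq
          have h1 : exteriorPower.ιMulti ℤ (j + 1 + 1)
              (Fin.cons (cl x) (Fin.cons (cl x) y : Fin (j + 1) → UV F)) = 0 :=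
            AlternatingMap.map_eq_zero_of_eq _ _ (i := 0) (j := 1) (by simp) (by simp)
          rw [h1, TensorProduct.tmul_zero, TensorProduct.tmul_zero]
    intro u
    exact LinearMap.congr_fun h0 u
  · intro φ hφ
    apply step_d hsd D m (j + 1) hev φ
    intro i hi x y hx
    obtain rfl : j = i := by omega
    have h1 := hφ (tq F (m + 1 + 3) j (some x) y)
    rw [D.d_some _ _ _ _ hx] at h1
    exact h1

include hsd in
theorem exact_e (j : ℕ) (hev : EvW F 0) : Function.Exact (D.d 0 j) (D.e (j + 1)) := by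
  apply exact_of_dual
  · have h0 : (D.e (j + 1)) ∘ₗ (D.d 0 j) = 0 := by
      apply text
      intro x y
      rw [LinearMap.comp_apply, LinearMap.zero_apply]
      rcases x with _ | x
      · rw [D.d_inf, map_zero]
      · by_cases hx : x = 0
        · subst hx
          rw [D.d_zero, map_zero]
        · rw [D.d_some _ _ _ _ hx]
          by_cases hx1 : x = 1
          · subst hx1
            exact D.e_one _ _
          · rw [D.e_some _ _ _ hx hx1]
            unfold lq
            have h1 : exteriorPower.ιMulti ℤ (j + 1 + 2)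
                (Fin.cons (cl (1 - x)) (Fin.cons (cl x)
                  (Fin.cons (cl x) y : Fin (j + 1) → UV F) :
                    Fin (j + 1 + 1) → UV F)) = 0 :=
              AlternatingMap.map_eq_zero_of_eq _ _ (i := ⟨1, by omega⟩) (j := ⟨2, by omega⟩)
                (by rfl) (by simp [Fin.ext_iff])
            rw [h1, TensorProduct.tmul_zero]
    intro u
    exact LinearMap.congr_fun h0 u
  · intro φ hφ
    apply step_e hsd D (j + 1) hev φ
    intro i hi x y hx
    obtain rfl : j = i := by omega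
    have h1 := hφ (tq F (0 + 3) j (some x) y)
    rw [D.d_some _ _ _ _ hx] at h1
    exact h1

include hsd in
theorem surj_e (j : ℕ) : Function.Surjective (D.e j) := by
  apply surjective_of_dual
  intro χ hχ
  apply lext
  intro z
  rw [LinearMap.zero_apply, ← toAlt_apply]
  have h1 : ∀ (y : Fin j → UV F) (s v : UV F),
      toAlt χ (Fin.cons v (Fin.cons s y)) = 0 := by
    intro y s v
    have h2 := hsd 0 (MultilinearMap.ofSubsingleton ℤ (UV F)
      (UV F →ₗ[ℤ] ℚ) (0 : Fin 1)
      (LinearMap.flip ((evalTail y) ∘ₗ (toAlt χ).curryLeft))) (by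
        intro f hf0 hf1
        change toAlt χ (Fin.cons (cl (1 - f)) (Fin.cons (cl f) y)) = 0
        rw [toAlt_apply, ← D.e_some j f y hf0 hf1]
        exact hχ _) s v
    exact h2
  have h3 := h1 (Fin.tail (Fin.tail z)) (Fin.tail z 0) (z 0)
  rwa [Fin.cons_self_tail, Fin.cons_self_tail] at h3

end Main

section Ev

variable {F : Type} [Field F]

/-- `{x} ↦ {x}_n ⊗ 1` -/
noncomputable def iota (F : Type) [Field F] (n : ℕ) : ZP F →ₗ[ℤ] TQ F n 0 :=
  Finsupp.linearCombination ℤ (fun x => tq F n 0 x Fin.elim0)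

theorem iota_single (n : ℕ) (x : P1 F) : iota F n (Finsupp.single x 1) = tq F n 0 x Fin.elim0 := by
  unfold iota
  rw [Finsupp.linearCombination_single, one_smul]

/-- a functional which kills `R_n` factors through `iota` -/
theorem factor {W : Type} [AddCommGroup W] [Module ℚ W] (n : ℕ) (θ : ZP F →ₗ[ℤ] W)
    (hθ : ∀ r ∈ R n F, θ r = 0) (α : ZP F) (hα : iota F n α = 0) : θ α = 0 := by
  let z : (⋀[ℤ]^0 (UV F)) →ₗ[ℤ] ℤ := (exteriorPower.zeroEquiv ℤ (UV F)).toLinearMap
  let Θ : ZP F →ₗ[ℤ] ((⋀[ℤ]^0 (UV F)) →ₗ[ℤ] W) :=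
    AddMonoidHom.toIntLinearMap
      { toFun := fun a => (LinearMap.toSpanSingleton ℤ W (θ a)) ∘ₗ z
        map_zero' := by ext; simp
        map_add' := by intro a b; ext; simp }
  let T : TQ F n 0 →ₗ[ℚ] W := e1lift Θ (fun r hr => by
    change (LinearMap.toSpanSingleton ℤ W (θ r)) ∘ₗ z = 0
    rw [hθ r hr]
    ext
    simp)
  have h1 : θ = (T.restrictScalars ℤ) ∘ₗ (iota F n) := by
    apply Finsupp.lhom_ext'
    intro x
    apply LinearMap.ext_ring
    change θ (Finsupp.single x 1) = T (iota F n (Finsupp.single x 1))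
    rw [iota_single]
    change _ = e1lift Θ _ (tq F n 0 x Fin.elim0)
    rw [e1lift_apply]
    change _ = (z (exteriorPower.ιMulti ℤ 0 Fin.elim0)) • (θ (Finsupp.single x 1))
    have h2 : z (exteriorPower.ιMulti ℤ 0 Fin.elim0) = 1 := by
      change exteriorPower.zeroEquiv ℤ (UV F) (exteriorPower.ιMulti ℤ 0 Fin.elim0) = 1
      exact exteriorPower.zeroEquiv_ιMulti _
    rw [h2, one_smul]
  rw [h1]
  change T (iota F n α) = 0
  rw [hα, map_zero]

theorem evW_zero (D : Differentials F) (h : Function.Injective (D.e 0)) : EvW F 0 := by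
  intro W _ _ θ hθ
  obtain ⟨L, hL⟩ := exists_ext (((D.e 0).restrictScalars ℤ) ∘ₗ (iota F 2)) θ (fun α hα => by
    have h1 : iota F 2 α = 0 := h (by rw [map_zero]; exact hα)
    exact factor 2 θ hθ α h1)
  let f : MultilinearMap ℤ (fun _ : Fin 2 => UV F) W :=
    ((L ∘ₗ (e1one (M := ⋀[ℤ]^2 (UV F)))).compAlternatingMap (exteriorPower.ιMulti ℤ 2)).toMultilinearMap
  have hf : ∀ v, f v = L (lq F 2 v) := fun v => rfl
  refine ⟨(multilinearCurryLeftEquiv ℤ (fun _ : Fin 1 => UV F) W).toLinearMap ∘ₗ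
      f.curryLeft, ?_, ?_⟩
  · intro a
    ext c
    change ((L ∘ₗ (e1one (M := ⋀[ℤ]^2 (UV F)))).compAlternatingMap (exteriorPower.ιMulti ℤ 2))
      (Fin.cons a (Fin.cons a c)) = 0
    apply AlternatingMap.map_eq_zero_of_eq _ _ (i := 0) (j := 1)
    · rfl
    · simp
  · rw [hL]
    apply Finsupp.lhom_ext'
    intro x
    apply LinearMap.ext_ring
    change L (D.e 0 (iota F 2 (Finsupp.single x 1))) = _
    rw [iota_single]
    change _ = ev _ (Finsupp.single x 1)
    rcases x with _ | x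
    · rw [D.e_inf, map_zero, ev_none]
    · rw [ev_some]
      by_cases hx : x = 0
      · subst hx
        rw [D.e_zero, map_zero, H39Gon.E2.cl_zero, map_zero]
        rfl
      · by_cases hx1 : x = 1
        · subst hx1
          rw [D.e_one, map_zero, sub_self, H39Gon.E2.cl_zero, map_zero]
          rfl
        · rw [D.e_some 0 x _ hx hx1]
          change _ = f (Fin.cons (cl (1 - x)) (Fin.cons (cl x) _))
          rw [hf]
          congr 2

theorem evW_succ (D : Differentials F) (m : ℕ) (h : Function.Injective (D.d m 0))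
    (hm : EvW F m) : EvW F (m + 1) := by
  intro W _ _ θ hθ
  obtain ⟨L, hL⟩ := exists_ext (((D.d m 0).restrictScalars ℤ) ∘ₗ (iota F (m + 3))) θ
    (fun α hα => by
      have h1 : iota F (m + 3) α = 0 := h (by rw [map_zero]; exact hα)
      exact factor (m + 3) θ hθ α h1)
  let z : ⋀[ℤ]^0 (UV F) := exteriorPower.ιMulti ℤ 0 Fin.elim0
  let E : ((⋀[ℤ]^0 (UV F)) →ₗ[ℤ] TQ F (m + 2) 1) →ₗ[ℤ] W :=
    AddMonoidHom.toIntLinearMap
      { toFun := fun g => L (g z)
        map_zero' := by simp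
        map_add' := by intro a b; simp }
  let θ' : ZP F →ₗ[ℤ] (UV F →ₗ[ℤ] W) := ((e1T F m 0).compr₂ E) ∘ₗ (R (m + 2) F).mkQ
  have hθ' : ∀ r ∈ R (m + 2) F, θ' r = 0 := by
    intro r hr
    have : (R (m + 2) F).mkQ r = 0 := by simpa using hr
    change ((e1T F m 0).compr₂ E) ((R (m + 2) F).mkQ r) = 0
    rw [this, map_zero]
  have hθ'1 : ∀ (x : P1 F) (a : UV F), θ' (Finsupp.single x 1) a =
      L (tq F (m + 2) 1 x (Fin.cons a Fin.elim0)) := by
    intro x a
    change L (e1T F m 0 (bcl (m + 2) x) a (exteriorPower.ιMulti ℤ 0 Fin.elim0)) = _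
    rw [e1T_apply]
  obtain ⟨Ψ', hΨ', h'⟩ := hm _ θ' hθ'
  obtain ⟨Ψ, hΨa, hΨ⟩ := e1_step m Ψ' hΨ'
  refine ⟨Ψ, hΨa, ?_⟩
  rw [hL]
  apply Finsupp.lhom_ext'
  intro x
  apply LinearMap.ext_ring
  change L (D.d m 0 (iota F (m + 3) (Finsupp.single x 1))) = ev Ψ (Finsupp.single x 1)
  rw [iota_single]
  rcases x with _ | x
  · rw [D.d_inf, map_zero, ev_none]
  · rw [hΨ, ← h', hθ'1]
    by_cases hx : x = 0
    · subst hx
      rw [D.d_zero, map_zero, H39Gon.E2.cl_zero]
      unfold tq
      rw [(exteriorPower.ιMulti ℤ (0 + 1)).map_coord_zero (i := 0) (by simp),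
        TensorProduct.tmul_zero, TensorProduct.tmul_zero, map_zero]
    · rw [D.d_some m 0 x _ hx]

theorem evW_of_inj (D : Differentials F) (he : Function.Injective (D.e 0)) (m : ℕ)
    (h : ∀ i, i < m → Function.Injective (D.d i 0)) : EvW F m := by
  induction m with
  | zero => exact evW_zero D he
  | succ m ih => exact evW_succ D m (h m (Nat.lt_succ_self m)) (ih (fun i hi => h i (by omega)))

end Ev

end Pool.Agent.J4.H22.GA
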