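import Pool.Agent.J4.H22.GA.Acyc

/-!
# Acyclicity of Goncharov's complexes from the vanishing of `H^1` (definitions of `GonP`)
-/

set_option autoImplicit false

namespace Pool.Agent.J4.H22.GA

open scoped TensorProduct
open GonP

variable {F : Type} [Field F]

/-- transport of differentials -/
noncomputable def toD (D : Differentials F) : H39Gon.Differentials F where
  d m j := (eT F m (j + 1)).toLinearMap ∘ₗ ((D.d_spec m j).1.mk' (D.d m j)) ∘ₗ
    (eT F (m + 1) j).symm.toLinearMap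
  d_inf m j y := by
    change eT F m (j + 1) (D.d m j ((eT F (m + 1) j).symm (H39Gon.tq F (m + 3) j none y))) = 0
    rw [show (eT F (m + 1) j).symm (H39Gon.tq F (m + 3) j none y) = tq (m + 3) j none y from
      eT_symm_tq (m + 1) j none y, (D.d_spec m j).2.1, map_zero]
  d_zero m j y := by
    change eT F m (j + 1) (D.d m j ((eT F (m + 1) j).symm (H39Gon.tq F (m + 3) j (some 0) y))) = 0
    rw [show (eT F (m + 1) j).symm (H39Gon.tq F (m + 3) j (some 0) y) = tq (m + 3) j (some 0) y from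
      eT_symm_tq (m + 1) j (some 0) y, (D.d_spec m j).2.2.1, map_zero]
  d_some m j x y hx := by
    change eT F m (j + 1) (D.d m j ((eT F (m + 1) j).symm (H39Gon.tq F (m + 3) j (some x) y))) = _
    rw [show (eT F (m + 1) j).symm (H39Gon.tq F (m + 3) j (some x) y) = tq (m + 3) j (some x) y from
      eT_symm_tq (m + 1) j (some x) y, (D.d_spec m j).2.2.2 x y hx]
    exact eT_tq m (j + 1) _ _
  e j := (eLQ F (j + 2)).toLinearMap ∘ₗ ((D.e_spec j).1.mk' (D.e j)) ∘ₗ
    (eT F 0 j).symm.toLinearMap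
  e_inf j y := by
    change eLQ F (j + 2) (D.e j ((eT F 0 j).symm (H39Gon.tq F 2 j none y))) = 0
    rw [show (eT F 0 j).symm (H39Gon.tq F 2 j none y) = tq 2 j none y from
      eT_symm_tq 0 j none y, (D.e_spec j).2.1, map_zero]
  e_zero j y := by
    change eLQ F (j + 2) (D.e j ((eT F 0 j).symm (H39Gon.tq F 2 j (some 0) y))) = 0
    rw [show (eT F 0 j).symm (H39Gon.tq F 2 j (some 0) y) = tq 2 j (some 0) y from
      eT_symm_tq 0 j (some 0) y, (D.e_spec j).2.2.1, map_zero]
  e_one j y := by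
    change eLQ F (j + 2) (D.e j ((eT F 0 j).symm (H39Gon.tq F 2 j (some 1) y))) = 0
    rw [show (eT F 0 j).symm (H39Gon.tq F 2 j (some 1) y) = tq 2 j (some 1) y from
      eT_symm_tq 0 j (some 1) y, (D.e_spec j).2.2.2.1, map_zero]
  e_some j x y hx hx1 := by
    change eLQ F (j + 2) (D.e j ((eT F 0 j).symm (H39Gon.tq F 2 j (some x) y))) = _
    rw [show (eT F 0 j).symm (H39Gon.tq F 2 j (some x) y) = tq 2 j (some x) y from
      eT_symm_tq 0 j (some x) y, (D.e_spec j).2.2.2.2 x y hx hx1]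
    exact eLQ_lq (j + 2) _

theorem ofD_toD (D : Differentials F) : ofD (toD D) = D := GonP.unique D (ofD (toD D))

theorem inj_conj {A A' B B' : Type*} [AddCommGroup A] [AddCommGroup A'] [AddCommGroup B]
    [AddCommGroup B'] [Module ℚ A] [Module ℚ A'] [Module ℚ B] [Module ℚ B'] (a : A ≃ₗ[ℚ] A')
    (b : B ≃ₗ[ℚ] B') (f : A' → B') (h : Function.Injective (fun x => b.symm (f (a x)))) :
    Function.Injective f := by
  intro x y hxy
  have h1 := @h (a.symm x) (a.symm y) (by simp [hxy])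
  exact a.symm.injective h1

theorem ofD_inj_d (D : H39Gon.Differentials F) (m : ℕ) (h : Function.Injective ((ofD D).d m 0)) :
    Function.Injective (D.d m 0) := inj_conj (eT F (m + 1) 0) (eT F m 1) _ h

theorem ofD_inj_e (D : H39Gon.Differentials F) (h : Function.Injective ((ofD D).e 0)) :
    Function.Injective (D.e 0) := inj_conj (eT F 0 0) (eLQ F 2) _ h

theorem surj_e' (hS : ∀ m, H39Gon.SpanDual F m) (D : Differentials F) (j : ℕ) :
    Function.Surjective (D.e j) := by
  rw [← ofD_toD D]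
  exact (eLQ F (j + 2)).symm.surjective.comp ((surj_e hS (toD D) j).comp (eT F 0 j).surjective)

theorem exact_e' (hS : ∀ m, H39Gon.SpanDual F m) (D : Differentials F)
    (h : Function.Injective (D.e 0)) (j : ℕ) : Function.Exact (D.d 0 j) (D.e (j + 1)) := by
  rw [← ofD_toD D] at h ⊢
  exact exact_conj (eT F 1 j) (eT F 0 (j + 1)) (eLQ F (j + 3)) _ _
    (exact_e hS (toD D) j (evW_zero (toD D) (ofD_inj_e _ h)))

theorem exact_d' (hS : ∀ m, H39Gon.SpanDual F m) (D : Differentials F)
    (h : Function.Injective (D.e 0)) (m : ℕ) (h' : ∀ i ≤ m, Function.Injective (D.d i 0)) (j : ℕ) :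
    Function.Exact (D.d (m + 1) j) (D.d m (j + 1)) := by
  rw [← ofD_toD D] at h ⊢
  have h2 : ∀ i ≤ m, Function.Injective ((toD D).d i 0) := by
    intro i hi
    apply ofD_inj_d
    rw [ofD_toD D]
    exact h' i hi
  exact exact_conj (eT F (m + 2) j) (eT F (m + 1) (j + 1)) (eT F m (j + 2)) _ _
    (exact_d hS (toD D) m j (evW_of_inj (toD D) (ofD_inj_e _ h) (m + 1)
      (fun i hi => h2 i (by omega))))

/-- the complexes `Γ(F,n) ⊗ ℚ`, `n ≥ 2`, are acyclic if and only if `H^1(Γ(F,n) ⊗ ℚ) = 0` for all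
`n ≥ 2` -/
theorem acyclic_iff (hS : ∀ m, H39Gon.SpanDual F m) (D : Differentials F) :
    D.Acyclic ↔ (∀ m, Function.Injective (D.d m 0)) ∧ Function.Injective (D.e 0) :=
  ⟨fun h => ⟨h.1, h.2.1⟩, fun h => ⟨h.1, h.2, fun m j => exact_d' hS D h.2 m (fun i _ => h.1 i) j,
    fun j => exact_e' hS D h.2 j, fun j => surj_e' hS D j⟩⟩

section rf

open Polynomial

theorem trdeg_rf (p : ℕ) [Fact p.Prime] (k : Type) [Field k] [Algebra (ZMod p) k]
    [Algebra.IsAlgebraic (ZMod p) k] : Algebra.trdeg (ZMod p) (RatFunc k) ≤ 1 := by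
  have h3 : IsScalarTower (ZMod p) k (RatFunc k) := inferInstance
  have h1 := trdeg_add_eq (ZMod p) k (A := RatFunc k)
  have h2 := trdeg_add_eq k k[X] (A := RatFunc k)
  have h4 : Algebra.IsAlgebraic k[X] (RatFunc k) := IsLocalization.isAlgebraic _ (nonZeroDivisors k[X])
  rw [trdeg_eq_zero, zero_add] at h1
  rw [trdeg_eq_zero (R := k[X]), add_zero, Polynomial.trdeg_of_isDomain] at h2
  rw [← h1, ← h2]

theorem inf_rf (p : ℕ) [Fact p.Prime] (k : Type) [Field k] [Infinite k] [Algebra (ZMod p) k]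
    [Algebra.IsAlgebraic (ZMod p) k] : {c : RatFunc k | IsAlgebraic (ZMod p) c}.Infinite := by
  have h3 : IsScalarTower (ZMod p) k (RatFunc k) := inferInstance
  refine (Set.infinite_range_of_injective (algebraMap k (RatFunc k)).injective).mono ?_
  rintro _ ⟨c, rfl⟩
  exact (Algebra.IsAlgebraic.isAlgebraic (R := ZMod p) c).algebraMap

end rf

end Pool.Agent.J4.H22.GA
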